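import Mathlib
import Pool.Agent.Y764.CZ.Asm3

set_option autoImplicit false

/-!
# For at least 80 percent of the real primitive characters all derivatives of even order of the
completed L-function at the central point are positive
-/

namespace Pool.Agent.Results.MP_0016c7_nt.AbsolutelyMonotone

/-- The pairs `(N, χ)`, `1 ≤ N ≤ X`, with `χ` a nontrivial primitive quadratic Dirichlet character
modulo `N`. -/
def Quadratic (X : ℕ) : Set (Σ N : ℕ, DirichletCharacter ℂ N) :=
  {p | (p.1 ≠ 0 ∧ p.2.IsPrimitive ∧ p.2 ^ 2 = 1 ∧ p.2 ≠ 1) ∧ p.1 ≤ X}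

/-- The real function `σ ↦ N^(σ/2) Re Λ(σ, χ)` of a real variable, the completed L-function. -/
noncomputable def LamR {N : ℕ} [NeZero N] (χ : DirichletCharacter ℂ N) (σ : ℝ) : ℝ :=
  (N : ℝ) ^ (σ / 2) * (DirichletCharacter.completedLFunction χ (σ : ℂ)).re

/-- All derivatives of even order of the completed L-function at `1/2` are positive, and all its
derivatives of all orders `n ≥ 0` are positive at all real `σ > 1/2`. -/
def AbsMonotone (p : Σ N : ℕ, DirichletCharacter ℂ N) : Prop :=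
  ∃ _ : NeZero p.1, (∀ n : ℕ, Even n → 0 < iteratedDeriv n (LamR p.2) (1 / 2)) ∧
    ∀ (n : ℕ) (σ : ℝ), 1 / 2 < σ → 0 < iteratedDeriv n (LamR p.2) σ

/-- **Theorem.** For all large `X`, at least 80 percent of the nontrivial real primitive characters
`χ` of conductor at most `X` have the following property: all derivatives of even order of the
completed L-function at `1/2`, and all its derivatives of all orders at the real points `σ > 1/2`,
are positive. -/
theorem result : ∃ X0 : ℕ, ∀ X : ℕ, X0 ≤ X → (Quadratic X).Finite ∧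
    (4 / 5 : ℝ) * ((Quadratic X).ncard : ℝ) ≤
      ((Quadratic X ∩ {p | AbsMonotone p}).ncard : ℝ) := by
  obtain ⟨N, hN⟩ := Pool.Agent.Y764.CZ.main3
  refine ⟨N, fun X hX => ?_⟩
  obtain ⟨h1, h2⟩ := hN X hX
  have hset : Quadratic X = Pool.Agent.H306R2.RG.LnkC.RPC ∩ {p | p.1 ≤ X} := rfl
  rw [hset]
  refine ⟨h1, h2.trans ?_⟩
  have hsub : (Pool.Agent.H306R2.RG.LnkC.RPC ∩ {p | p.1 ≤ X} ∩
        {p | Pool.Agent.Y764.CZ.GoodCP X p}) ⊆
      (Pool.Agent.H306R2.RG.LnkC.RPC ∩ {p | p.1 ≤ X}) ∩ {p | AbsMonotone p} := by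
    rintro p ⟨hp1, hp2⟩
    obtain ⟨hpos, hNz, hz, he, hr⟩ := hp2
    have hfun : ∀ [NeZero p.1], LamR p.2 =
        fun x : ℝ => (Pool.Agent.W169.RT.LamC p.2 (x : ℂ)).re := by
      intro _
      funext x
      have h : (p.1 : ℂ) ^ ((x : ℂ) / 2) = (((p.1 : ℝ) ^ (x / 2) : ℝ) : ℂ) := by
        rw [Complex.ofReal_cpow (Nat.cast_nonneg p.1)]
        push_cast
        rfl
      unfold Pool.Agent.W169.RT.LamC LamR
      rw [h, Complex.re_ofReal_mul]
    refine ⟨hp1, hNz, fun n hn => ?_, fun n σ hσ => ?_⟩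
    · obtain ⟨m, rfl⟩ := hn.exists_two_nsmul n
      rw [smul_eq_mul, hfun]
      exact he m
    · rw [hfun]
      exact hr n σ hσ
  exact_mod_cast Set.ncard_le_ncard hsub (h1.subset Set.inter_subset_left)

end Pool.Agent.Results.MP_0016c7_nt.AbsolutelyMonotone
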