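import Pool.Agent.Y862.RLQ

set_option autoImplicit false

/-!
# The number of the real zeros of a quadratic L-function from the primes, without any hypothesis

Let `χ` be a nontrivial quadratic character, `0 ≤ σ`, `γ > π / 2`, and put

`S(T) = ∑_n χ(n) Λ(n) / (n^σ log n) · e^{iγ log n / T} / Γ(1 + log n / T)`,

a series which converges absolutely for every `T > 0`. Let `m` be the order and `l` the leading coefficient
of `L(s, χ)` at `s = σ`, and let `n(σ)` be the number of the zeros of `L(s, χ)` in `(σ, 1)`, with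
multiplicities. Then, unconditionally and for EVERY `χ`, as `T → ∞`,

`S(T) = - m (log T - Λ_γ) + log |l| - i π n(σ) + O(1 / T)`,

`Λ_γ = ∫_0^∞ (e^{-t} - e^{iγt} / Γ(1 + t)) dt / t`. So `L(s, χ) > 0` on `(σ, 1)` if and only if the imaginary
part of `S(T)` tends to `m Im Λ_γ`. The zeros off the real axis play no role.

Proof. The kernel is an integral of `exp (e^z) e^{-zu}` over the boundary of a half strip (Hankel), shifted
by `-iγ` (library of helpers 187, 189 and others, `Pool.Agent.W187.UR.mdata_rot`): as `T → ∞` the sum is the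
value of the continuation of `log L(s, χ)` to `s = σ + 0` along the lower side of the real axis.
-/

namespace Pool.Agent.Results.MP_0016c7_nt.RealZeroCount

open Filter Topology Set
open scoped ArithmeticFunction.vonMangoldt

/-- `χ(n) Λ(n) / (n^σ log n) · e^{iγ log n / T} / Γ(1 + log n / T)` -/
noncomputable def term {N : ℕ} (χ : DirichletCharacter ℂ N) (σ γ T : ℝ) (n : ℕ) : ℂ :=
  χ n * ((Λ n / ((n : ℝ) ^ σ * Real.log n) : ℝ) : ℂ) *
    Complex.exp (((γ * (Real.log n / T) : ℝ) : ℂ) * Complex.I) /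
      ((Real.Gamma (1 + Real.log n / T) : ℝ) : ℂ)

/-- `S(T)`, the sum of these terms -/
noncomputable def S {N : ℕ} (χ : DirichletCharacter ℂ N) (σ γ T : ℝ) : ℂ := ∑' n : ℕ, term χ σ γ T n

/-- `Λ_γ = ∫_0^∞ (e^{-t} - e^{iγt} / Γ(1 + t)) dt / t` -/
noncomputable def Lam (γ : ℝ) : ℂ := ∫ t in Ioi (0 : ℝ),
  (Complex.exp (-(t : ℂ)) - Complex.exp ((γ * t : ℝ) * Complex.I) * ((Real.Gamma (1 + t))⁻¹ : ℝ)) / t

/-- the number of the zeros of `L(s, χ)` in `(σ, 1)`, with multiplicities -/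
noncomputable def zeros {N : ℕ} [NeZero N] (χ : DirichletCharacter ℂ N) (σ : ℝ) : ℕ :=
  ∑ᶠ s ∈ Ioo σ 1, analyticOrderNatAt χ.LFunction ((s : ℝ) : ℂ)

open Pool.Agent.Y862.RL in
theorem term_eq {N : ℕ} [NeZero N] (χ : DirichletCharacter ℂ N) (hq : χ ^ 2 = 1) (σ γ T : ℝ) (n : ℕ) :
    term χ σ γ T n = ((ac χ (σ : ℂ) n).re : ℂ) *
      Complex.exp ((γ * (Real.log n / T) : ℝ) * Complex.I) *
        ((Real.Gamma (1 + Real.log n / T))⁻¹ : ℝ) := by
  have h1 : ((ac χ (σ : ℂ) n).re : ℂ) = χ n * ((Λ n / ((n : ℝ) ^ σ * Real.log n) : ℝ) : ℂ) := by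
    have h2 : ac χ (σ : ℂ) n = (((χ n).re * (Λ n / ((n : ℝ) ^ σ * Real.log n)) : ℝ) : ℂ) := by
      unfold ac fc
      have h3 : (n : ℂ) ^ (-(σ : ℂ)) = (((n : ℝ) ^ (-σ) : ℝ) : ℂ) := by
        rw [Complex.ofReal_cpow (Nat.cast_nonneg n)]
        push_cast
        rfl
      rw [h3, ← val_real χ hq n, Real.rpow_neg (Nat.cast_nonneg n)]
      push_cast
      rw [Complex.ofReal_re]
      field_simp
    rw [h2, Complex.ofReal_re]
    push_cast
    rw [val_real χ hq n]
  unfold term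
  rw [h1]
  push_cast
  rw [div_eq_mul_inv]

open Pool.Agent.Y862.RL Pool.Agent.W189.ML in
theorem term_summable {N : ℕ} [NeZero N] (χ : DirichletCharacter ℂ N) (hq : χ ^ 2 = 1) {σ : ℝ}
    (hσ : 0 ≤ σ) (γ : ℝ) {T : ℝ} (hT : 0 < T) : Summable fun n => ‖term χ σ γ T n‖ := by
  have hs := (mdata χ (s₀ := (σ : ℂ)) (by simpa using hσ)).sum 2 (by norm_num)
  refine Summable.of_nonneg_of_le (fun n => norm_nonneg _) (fun n => ?_)
    (hs.mul_left (Real.exp (Real.exp (2 * T)) + 1))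
  have h1 : 0 ≤ Real.log n / T := div_nonneg (Real.log_natCast_nonneg n) hT.le
  have h2 := om_le (a := 2 * T) (v := Real.log n / T) (by positivity) h1
  have h3 : 2 * T * (Real.log n / T) = 2 * Real.log n := by field_simp
  rw [h3] at h2
  rw [term_eq χ hq, norm_mul, norm_mul, Complex.norm_exp_ofReal_mul_I, mul_one, Complex.norm_real,
    Complex.norm_real, Real.norm_eq_abs, Real.norm_eq_abs]
  have h4 : |(Real.Gamma (1 + Real.log n / T))⁻¹| = om (Real.log n / T) := by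
    unfold om
    exact abs_of_nonneg (inv_nonneg.2 (Real.Gamma_pos_of_pos (by linarith)).le)
  rw [h4]
  have h5 : |(ac χ (σ : ℂ) n).re| ≤ |cc χ (σ : ℂ) n| := by
    unfold cc
    rw [abs_mul, abs_two]
    have := abs_nonneg (ac χ (σ : ℂ) n).re
    linarith
  calc |(ac χ (σ : ℂ) n).re| * om (Real.log n / T) ≤
      |cc χ (σ : ℂ) n| * ((Real.exp (Real.exp (2 * T)) + 1) * Real.exp (-(2 * Real.log n))) := by
        refine mul_le_mul h5 h2 ?_ (abs_nonneg _)
        rw [← h4]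
        exact abs_nonneg _
    _ = _ := by
        unfold lg
        ring

/-- **The number of the real zeros from the primes.** -/
theorem result {N : ℕ} [NeZero N] (χ : DirichletCharacter ℂ N) (hχ : χ ≠ 1) (hq : χ ^ 2 = 1)
    (σ : ℝ) (hσ : 0 ≤ σ) (γ : ℝ) (hγ : Real.pi / 2 < γ) :
    (∀ T : ℝ, 0 < T → Summable fun n => ‖term χ σ γ T n‖) ∧
    {s : ℝ | s ∈ Ioo σ 1 ∧ χ.LFunction (s : ℂ) = 0}.Finite ∧
    (∃ C T₀ : ℝ, ∀ T : ℝ, T₀ ≤ T →
      ‖S χ σ γ T - (-(analyticOrderNatAt χ.LFunction (σ : ℂ) * (Real.log T - Lam γ)) +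
        Real.log ‖meromorphicTrailingCoeffAt χ.LFunction (σ : ℂ)‖ -
          Real.pi * zeros χ σ * Complex.I)‖ ≤ C / T) ∧
    ((∀ s : ℝ, σ < s → s < 1 → (χ.LFunction (s : ℂ)).im = 0 ∧ 0 < (χ.LFunction (s : ℂ)).re) ↔
      Tendsto (fun T : ℝ => (S χ σ γ T).im) atTop
        (𝓝 (analyticOrderNatAt χ.LFunction (σ : ℂ) * (Lam γ).im))) := by
  have hS : ∀ T, S χ σ γ T = Pool.Agent.Y862.RL.rs χ (σ : ℂ) γ T := fun T =>
    tsum_congr fun n => term_eq χ hq σ γ T n
  obtain ⟨C, T₀, hC, hT₀, h⟩ := Pool.Agent.Y862.RL.ray χ (s₀ := (σ : ℂ)) (by simpa using hσ) hγ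
  have hmain : ∀ T : ℝ, T₀ ≤ T →
      ‖S χ σ γ T - (-(analyticOrderNatAt χ.LFunction (σ : ℂ) * (Real.log T - Lam γ)) +
        Real.log ‖meromorphicTrailingCoeffAt χ.LFunction (σ : ℂ)‖ -
          Real.pi * zeros χ σ * Complex.I)‖ ≤ C / T := by
    intro T hT
    have h1 := h T hT
    rw [Pool.Agent.Y862.RL.excess_nz χ hχ, (Pool.Agent.Y862.RL.od_nat χ hχ _).1, ← hS] at h1
    exact_mod_cast h1
  refine ⟨fun T hT => term_summable χ hq hσ γ hT, Pool.Agent.Y862.RL.zeros_finite χ hχ σ,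
    ⟨C, T₀, hmain⟩, ?_⟩
  have him : Tendsto (fun T : ℝ => (S χ σ γ T).im) atTop
      (𝓝 (analyticOrderNatAt χ.LFunction (σ : ℂ) * (Lam γ).im - Real.pi * zeros χ σ)) := by
    rw [tendsto_iff_norm_sub_tendsto_zero]
    have h0 : Tendsto (fun T : ℝ => C / T) atTop (𝓝 0) := tendsto_const_nhds.div_atTop tendsto_id
    refine squeeze_zero' (Eventually.of_forall fun T => norm_nonneg _) ?_ h0
    filter_upwards [eventually_ge_atTop T₀] with T hT
    refine le_trans ?_ (hmain T hT)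
    rw [Real.norm_eq_abs]
    refine le_trans (le_of_eq ?_) (Complex.abs_im_le_norm _)
    congr 1
    simp
  have hiff := Pool.Agent.Y862.RL.nz_eq_zero_iff χ hχ σ
  rw [← Pool.Agent.Y862.RL.pos_iff χ hχ hq σ, ← hiff]
  constructor
  · intro h0
    have h1 : zeros χ σ = 0 := h0
    rw [h1, Nat.cast_zero, mul_zero, sub_zero] at him
    exact him
  · intro h0
    have h1 := tendsto_nhds_unique h0 him
    have h2 : Real.pi * zeros χ σ = 0 := by linarith
    rcases mul_eq_zero.1 h2 with h3 | h3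
    · exact absurd h3 Real.pi_ne_zero
    · exact_mod_cast h3

end Pool.Agent.Results.MP_0016c7_nt.RealZeroCount
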