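import Pool.Agent.Y854.RZ.Main

/-!
# Real zeros of quadratic `L(s,χ)`, conductors in the sparse sequence `⌊α n ^ c⌋`

For every real `c > 1` and all amplitudes `α > 0` outside a set of Hausdorff dimension less than one:
among the primitive quadratic characters with conductor `⌊α n ^ c⌋`, `n ≤ X`, with prescribed values at
finitely many primes and prescribed parity, at least 86.4 percent have no real zero in `(0,1)`.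
-/

set_option autoImplicit false

namespace Pool.Agent.Results.MP_0016c7_nt.SparseConductors

/-- The pairs `(n, χ)` with `1 ≤ n ≤ X` and `χ` a nontrivial primitive quadratic Dirichlet character
modulo `⌊α n ^ c⌋` such that `χ(-1) = s` and `χ(p) = v p` for all `p ∈ S`. -/
def Class (α c : ℝ) (S : Finset ℕ) (v : ℕ → ℤ) (s : ℤ) (X : ℕ) :
    Set (Σ n : ℕ, DirichletCharacter ℂ ⌊α * (n : ℝ) ^ c⌋₊) :=
  {p | (1 ≤ p.1 ∧ p.1 ≤ X ∧ ⌊α * (p.1 : ℝ) ^ c⌋₊ ≠ 0) ∧ p.2.IsPrimitive ∧ p.2 ^ 2 = 1 ∧ p.2 ≠ 1 ∧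
    p.2 (-1) = (s : ℂ) ∧ ∀ q ∈ S, p.2 (q : ZMod ⌊α * (p.1 : ℝ) ^ c⌋₊) = (v q : ℂ)}

/-- `L(σ,χ)` is real and positive for every real `σ` with `0 < σ < 1`. -/
def Positive (N : ℕ) (χ : DirichletCharacter ℂ N) : Prop :=
  ∃ _ : NeZero N, ∀ σ : ℝ, 0 < σ → σ < 1 →
    (DirichletCharacter.LFunction χ (σ : ℂ)).im = 0 ∧ 0 < (DirichletCharacter.LFunction χ (σ : ℂ)).re

open Pool.Agent.Y854.RZ Finset
open Pool.Agent.H306R2.RG.LnkC (RPC POS)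

/-- the count of pairs is a sum over `n` -/
lemma ncard_eq (α c : ℝ) (Z : Set PC) (T : ∀ X : ℕ, Set (Σ n : ℕ, DirichletCharacter ℂ ⌊α * (n : ℝ) ^ c⌋₊))
    (hT : ∀ X p, p ∈ T X ↔ (1 ≤ p.1 ∧ p.1 ≤ X) ∧
      (⟨⌊α * (p.1 : ℝ) ^ c⌋₊, p.2⟩ : PC) ∈ RPC ∩ Z) (X : ℕ) :
    (T X).Finite ∧ ((T X).ncard : ℝ) = ∑ n ∈ Icc 1 X, f Z ⌊α * (n : ℝ) ^ c⌋₊ := by
  classical
  -- the fibres
  have hfib : ∀ n : ℕ, (RPC ∩ (Z ∩ {p | p.1 = ⌊α * (n : ℝ) ^ c⌋₊})) =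
      (fun χ : DirichletCharacter ℂ ⌊α * (n : ℝ) ^ c⌋₊ => (⟨⌊α * (n : ℝ) ^ c⌋₊, χ⟩ : PC)) ''
        {χ | (⟨⌊α * (n : ℝ) ^ c⌋₊, χ⟩ : PC) ∈ RPC ∩ Z} := by
    intro n
    ext p
    constructor
    · rintro ⟨h1, h2, h3⟩
      obtain ⟨N, χ⟩ := p
      have h3' : N = ⌊α * (n : ℝ) ^ c⌋₊ := h3
      subst h3'
      exact ⟨χ, ⟨h1, h2⟩, rfl⟩
    · rintro ⟨χ, ⟨h1, h2⟩, rfl⟩
      exact ⟨h1, h2, rfl⟩
  have hinj : ∀ n : ℕ, Function.Injective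
      (fun χ : DirichletCharacter ℂ ⌊α * (n : ℝ) ^ c⌋₊ => (⟨⌊α * (n : ℝ) ^ c⌋₊, χ⟩ : PC)) := by
    intro n χ χ' h
    exact sigma_mk_injective h
  have hfin : ∀ n : ℕ, {χ : DirichletCharacter ℂ ⌊α * (n : ℝ) ^ c⌋₊ | (⟨⌊α * (n : ℝ) ^ c⌋₊, χ⟩ : PC) ∈ RPC ∩ Z}.Finite := by
    intro n
    have h1 := (few ⌊α * (n : ℝ) ^ c⌋₊ Z).1
    rw [hfib n] at h1
    exact h1.of_finite_image ((hinj n).injOn)
  have hcard : ∀ n : ℕ, f Z ⌊α * (n : ℝ) ^ c⌋₊ =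
      ({χ : DirichletCharacter ℂ ⌊α * (n : ℝ) ^ c⌋₊ | (⟨⌊α * (n : ℝ) ^ c⌋₊, χ⟩ : PC) ∈ RPC ∩ Z}.ncard : ℝ) := by
    intro n
    unfold f
    rw [hfib n, Set.ncard_image_of_injective _ (hinj n)]
  have hTX : T X = ↑((Icc 1 X).sigma fun n => (hfin n).toFinset) := by
    ext p
    rw [hT, mem_coe, mem_sigma, mem_Icc, Set.Finite.mem_toFinset]
    exact Iff.rfl
  refine ⟨hTX ▸ Finset.finite_toSet _, ?_⟩
  rw [hTX, Set.ncard_coe_finset, Finset.card_sigma]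
  push_cast
  apply Finset.sum_congr rfl
  intro n _
  rw [hcard n, Set.ncard_eq_toFinset_card _ (hfin n)]

/-- **Theorem.** For every real `c > 1` there is a set `E` of real numbers of Hausdorff dimension less than one
such that for all `α > 0` outside `E` the following holds. Let `S` be a finite set of primes, `v p ∈ {0, 1, -1}`
for `p ∈ S` and `s ∈ {1, -1}`. There are at least `κ X` pairs `(n, χ)`, `n ≤ X`, with `χ` a primitive quadratic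
character modulo `⌊α n ^ c⌋`, `χ(p) = v p` for `p ∈ S` and `χ(-1) = s`, with some `κ > 0`, and for all large
`X` at least 86.4 percent of them satisfy `L(σ,χ) > 0` for all `0 < σ < 1`. -/
theorem result : ∀ c : ℝ, 1 < c → ∃ E : Set ℝ, dimH E < 1 ∧ ∀ α : ℝ, 0 < α → α ∉ E →
    ∀ (S : Finset ℕ), (∀ p ∈ S, p.Prime) → ∀ (v : ℕ → ℤ), (∀ p ∈ S, v p = 0 ∨ v p = 1 ∨ v p = -1) →
    ∀ s : ℤ, (s = 1 ∨ s = -1) →
      (∀ X : ℕ, (Class α c S v s X).Finite) ∧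
      (∃ κ : ℝ, 0 < κ ∧ ∃ X0 : ℕ, ∀ X : ℕ, X0 ≤ X → κ * (X : ℝ) ≤ ((Class α c S v s X).ncard : ℝ)) ∧
      (∃ X0 : ℕ, ∀ X : ℕ, X0 ≤ X → (864 / 1000 : ℝ) * ((Class α c S v s X).ncard : ℝ) ≤
        ((Class α c S v s X ∩ {p | Positive _ p.2}).ncard : ℝ)) := by
  intro c hc
  classical
  -- the classes
  let J : Type := {k : Finset ℕ × (ℕ →₀ ℤ) × ℤ // (∀ p ∈ k.1, p.Prime) ∧
    (∀ p ∈ k.1, k.2.1 p = 0 ∨ k.2.1 p = 1 ∨ k.2.1 p = -1) ∧ (k.2.2 = 1 ∨ k.2.2 = -1)}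
  let Z : J → Set PC := fun k => {p | p.2 (-1) = (k.1.2.2 : ℂ) ∧ ∀ q ∈ k.1.1, p.2 (q : ZMod p.1) = (k.1.2.1 q : ℂ)}
  have hcl : ∀ (k : J) (X : ℕ), RPC ∩ (Z k ∩ {p | p.1 ≤ X}) =
      Pool.Agent.H306R2.RG.LnkC.RPC ∩ (Pool.Agent.W161.LF.CL k.1.1 k.1.2.1 k.1.2.2 ∩ {p | p.1 ≤ X}) := by
    intro k X
    rfl
  have hcl2 : ∀ (k : J) (X : ℕ), RPC ∩ ((Z k ∩ {p | POS p}) ∩ {p | p.1 ≤ X}) =
      Pool.Agent.H306R2.RG.LnkC.RPC ∩ ((Pool.Agent.W161.LF.CL k.1.1 k.1.2.1 k.1.2.2 ∩ {p | p.1 ≤ X}) ∩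
        {p | Pool.Agent.H306R2.RG.LnkC.POS p}) := by
    intro k X
    have : ((Z k ∩ {p | POS p}) ∩ {p : PC | p.1 ≤ X}) = ((Z k ∩ {p | p.1 ≤ X}) ∩ {p | POS p}) := by
      rw [Set.inter_assoc, Set.inter_assoc, Set.inter_comm {p | POS p}]
    rw [this]
    rfl
  have hbase := fun k : J => Pool.Agent.W161.LF.mainA k.1.1 k.2.1 k.1.2.1 k.2.2.1 k.1.2.2 k.2.2.2
  obtain ⟨E, hE, h⟩ := main c hc (8645 / 10000) Z
    (fun k => by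
      obtain ⟨-, ⟨κ, N1, hκ, h2⟩, -⟩ := hbase k
      exact ⟨κ, hκ, N1, fun X hX => by rw [hcl]; exact h2 X hX⟩)
    (fun k => by
      obtain ⟨-, -, ⟨N2, h3⟩⟩ := hbase k
      exact ⟨N2, fun X hX => by rw [hcl, hcl2]; exact h3 X hX⟩)
  refine ⟨E, hE, fun α hα hαE S hS v hv s hs => ?_⟩
  -- the index
  let w : ℕ →₀ ℤ := Finsupp.onFinset S (fun q => if q ∈ S then v q else 0) (fun q hq => by
    by_contra hc
    rw [if_neg hc] at hq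
    exact hq rfl)
  have hw : ∀ q ∈ S, w q = v q := fun q hq => by
    show (if q ∈ S then v q else 0) = v q
    rw [if_pos hq]
  let k : J := ⟨(S, w, s), hS, fun p hp => by
    show w p = 0 ∨ w p = 1 ∨ w p = -1
    rw [hw p hp]; exact hv p hp, hs⟩
  obtain ⟨⟨κ, hκ, X1, h1⟩, h2⟩ := h α hα hαE k
  obtain ⟨X2, h3⟩ := h2 (864 / 1000) (by norm_num)
  have hmem : ∀ p : Σ n : ℕ, DirichletCharacter ℂ ⌊α * (n : ℝ) ^ c⌋₊, (∀ q ∈ S, p.2 (q : ZMod ⌊α * (p.1 : ℝ) ^ c⌋₊) = (v q : ℂ)) ↔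
      ∀ q ∈ S, p.2 (q : ZMod ⌊α * (p.1 : ℝ) ^ c⌋₊) = (w q : ℂ) := by
    intro p
    constructor
    · intro h q hq; rw [hw q hq]; exact h q hq
    · intro h q hq; rw [← hw q hq]; exact h q hq
  have e1 := ncard_eq α c (Z k) (fun X => Class α c S v s X) (fun X p => by
    constructor
    · rintro ⟨⟨g1, g2, g3⟩, g4, g5, g6, g7, g8⟩
      exact ⟨⟨g1, g2⟩, ⟨g3, g4, g5, g6⟩, g7, (hmem p).1 g8⟩
    · rintro ⟨⟨g1, g2⟩, ⟨g3, g4, g5, g6⟩, g7, g8⟩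
      exact ⟨⟨g1, g2, g3⟩, g4, g5, g6, g7, (hmem p).2 g8⟩)
  have e2 := ncard_eq α c (Z k ∩ {p | POS p}) (fun X => Class α c S v s X ∩ {p | Positive _ p.2}) (fun X p => by
    constructor
    · rintro ⟨⟨⟨g1, g2, g3⟩, g4, g5, g6, g7, g8⟩, g9⟩
      exact ⟨⟨g1, g2⟩, ⟨g3, g4, g5, g6⟩, ⟨g7, (hmem p).1 g8⟩, g9⟩
    · rintro ⟨⟨g1, g2⟩, ⟨g3, g4, g5, g6⟩, ⟨g7, g8⟩, g9⟩
      exact ⟨⟨⟨g1, g2, g3⟩, g4, g5, g6, g7, (hmem p).2 g8⟩, g9⟩)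
  refine ⟨fun X => (e1 X).1, ⟨κ, hκ, X1, fun X hX => ?_⟩, ⟨X2, fun X hX => ?_⟩⟩
  · rw [(e1 X).2]; exact h1 X hX
  · rw [(e1 X).2, (e2 X).2]; exact h3 X hX

end Pool.Agent.Results.MP_0016c7_nt.SparseConductors
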