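import Mathlib
import Pool.Agent.Y764.CZ.Asm3

set_option autoImplicit false

/-!
# For at least 80 percent of the real primitive characters all zeros of `L(s,χ)` satisfy
`|Im s| > |Re s - 1/2|` and `|Im s| > 1 / log X`
-/

namespace Pool.Agent.Results.MP_0016c7_nt.ZeroFreeCone

/-- The pairs `(N, χ)`, `1 ≤ N ≤ X`, with `χ` a nontrivial primitive quadratic Dirichlet character
modulo `N`. -/
def Quadratic (X : ℕ) : Set (Σ N : ℕ, DirichletCharacter ℂ N) :=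
  {p | (p.1 ≠ 0 ∧ p.2.IsPrimitive ∧ p.2 ^ 2 = 1 ∧ p.2 ≠ 1) ∧ p.1 ≤ X}

/-- Every zero `s` of `L(s,χ)` with `0 < Re s < 1` satisfies `|Im s| > |Re s - 1/2|` and
`|Im s| > 1 / log X`. -/
def ConeZeros (X : ℕ) (p : Σ N : ℕ, DirichletCharacter ℂ N) : Prop :=
  ∃ _ : NeZero p.1, ∀ s : ℂ, 0 < s.re → s.re < 1 → DirichletCharacter.LFunction p.2 s = 0 →
    |s.re - 1 / 2| < |s.im| ∧ 1 / Real.log X < |s.im|

/-- **Theorem.** For all large `X`, at least 80 percent of the nontrivial real primitive characters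
`χ` of conductor at most `X` have the following property: every zero `s` of `L(s,χ)` in the
critical strip satisfies `|Im s| > |Re s - 1/2|` and `|Im s| > 1 / log X`. -/
theorem result : ∃ X0 : ℕ, ∀ X : ℕ, X0 ≤ X → (Quadratic X).Finite ∧
    (4 / 5 : ℝ) * ((Quadratic X).ncard : ℝ) ≤
      ((Quadratic X ∩ {p | ConeZeros X p}).ncard : ℝ) := by
  obtain ⟨N, hN⟩ := Pool.Agent.Y764.CZ.main3
  refine ⟨N, fun X hX => ?_⟩
  obtain ⟨h1, h2⟩ := hN X hX
  have hset : Quadratic X = Pool.Agent.H306R2.RG.LnkC.RPC ∩ {p | p.1 ≤ X} := rfl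
  rw [hset]
  refine ⟨h1, h2.trans ?_⟩
  have hsub : (Pool.Agent.H306R2.RG.LnkC.RPC ∩ {p | p.1 ≤ X} ∩
        {p | Pool.Agent.Y764.CZ.GoodCP X p}) ⊆
      (Pool.Agent.H306R2.RG.LnkC.RPC ∩ {p | p.1 ≤ X}) ∩ {p | ConeZeros X p} := by
    rintro p ⟨hp1, hp2⟩
    obtain ⟨hpos, hNz, hz, he, hr⟩ := hp2
    refine ⟨hp1, hNz, fun s hs0 hs1 hs => ?_⟩
    have h3 : ¬ |s.im| ≤ max |s.re - 1 / 2| (1 / Real.log X) := fun h => hz s hs0 hs1 h hs
    rw [not_le, max_lt_iff] at h3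
    exact h3
  exact_mod_cast Set.ncard_le_ncard hsub (h1.subset Set.inter_subset_left)

end Pool.Agent.Results.MP_0016c7_nt.ZeroFreeCone
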